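import Pool.Agent.Lib.MP_b5021c_nt.IfaceS2
import Pool.Agent.Lib.MP_b5021c_nt.IfaceL2

/-!
# Board b5, row T_JPE: induction in steps of `1/4`
-/

namespace Pool.Agent.B5.H97

open Pool.Agent.MP_b5021c_nt (Eis)

theorem const_le_bPS {θ : ℝ} (h : 1 < θ) : 240000 ≤ bPS θ := by
  have h2 : 0 ≤ Real.log θ := Real.log_nonneg h.le
  unfold bPS
  linarith

/-- Row T_JPE. -/
theorem jpe (h0 : JPLS) (h1 : Jp2S) (h2 : JveS) : JpeS := by
  have small : ∀ θ : ℝ, θ ≤ 100 → BdP Eis θ (bPS θ) := by
    intro θ hθ P L _ _ _ _ _ phi D hD hP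
    have h3 : 1 < θ := hP.1
    have h4 := h0 θ P L phi D hD hP
    have h5 := const_le_bPS h3
    linarith
  have key : ∀ n : ℕ, ∀ θ : ℝ, θ ≤ 100 + (n : ℝ) / 4 → BdP Eis θ (bPS θ) := by
    intro n
    induction n with
    | zero =>
      intro θ hθ
      apply small
      norm_num at hθ
      exact hθ
    | succ n ih =>
      intro θ hθ
      rcases le_total θ 100 with h6 | h6
      · exact small θ h6
      · intro P L _ _ _ _ _ phi D hD hP
        rcases Nat.lt_or_ge (Module.finrank ℤ L) 3 with h4 | h4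
        · have h5 : (Module.finrank ℤ L : ℝ) ≤ 2 := by
            exact_mod_cast Nat.lt_succ_iff.mp h4
          have h7 := const_le_bPS hP.1
          linarith
        · apply h1 P L phi D θ h6 hD hP h4 h2
          intro x hx
          apply ih
          push_cast at hθ
          linarith
  intro θ
  obtain ⟨n, hn⟩ := exists_nat_ge (4 * (θ - 100))
  exact key n θ (by linarith)

end Pool.Agent.B5.H97
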