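import Pool.Agent.Lib.MP_b5021c_nt.IfaceS4
import Pool.Agent.Lib.MP_b5021c_nt.IfaceL2

/-!
# Board b5, row U_JQ3: class `P`, induction in steps of `1/4` (final form)
-/

namespace Pool.Agent.B5.H97

open Pool.Agent.MP_b5021c_nt (Eis)

/-- Row U_JQ3. -/
theorem jq3 (h0 : JPLS) (h1 : Jp3S) (h2 : Jw3S) : Jq3S := by
  have small : ∀ θ : ℝ, θ ≤ 200 → BdP Eis θ (2 * θ + 480000) := by
    intro θ hθ P L _ _ _ _ _ phi D hD hP
    have h4 := h0 θ P L phi D hD hP
    linarith
  have key : ∀ n : ℕ, ∀ θ : ℝ, θ ≤ 200 + (n : ℝ) / 4 → BdP Eis θ (2 * θ + 480000) := by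
    intro n
    induction n with
    | zero =>
      intro θ hθ
      apply small
      norm_num at hθ
      exact hθ
    | succ n ih =>
      intro θ hθ
      rcases le_total θ 200 with h6 | h6
      · exact small θ h6
      · intro P L _ _ _ _ _ phi D hD hP
        rcases Nat.lt_or_ge (Module.finrank ℤ L) 3 with h4 | h4
        · have h5 : (Module.finrank ℤ L : ℝ) ≤ 2 := by
            exact_mod_cast Nat.lt_succ_iff.mp h4
          linarith
        · apply h1 P L phi D θ h6 hD hP h4 h2
          intro x hx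
          have h7 : x ≤ 200 + (n : ℝ) / 4 := by
            push_cast at hθ
            linarith
          intro P' L' _ _ _ _ _ phi' D' hD' hP'
          exact le_min (h0 x P' L' phi' D' hD' hP') (ih x h7 P' L' phi' D' hD' hP')
  intro θ
  obtain ⟨n, hn⟩ := exists_nat_ge (4 * (θ - 200))
  exact key n θ (by linarith)

end Pool.Agent.B5.H97
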